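import Pool.Agent.Q95.HQ.E

namespace Pool.Agent.Results.MP_284f77_nt.TwoAdicIntegrality

/-- `Π_1(N) = ∏_{j=1}^{N} (4j-1)^2` -/
def Pi1 (N : ℕ) : ℤ := ∏ j ∈ Finset.Icc 1 N, (4 * (j : ℤ) - 1) ^ 2

/-- `Π_3(N) = ∏_{j=1}^{N} (4j-3)^2` -/
def Pi3 (N : ℕ) : ℤ := ∏ j ∈ Finset.Icc 1 N, (4 * (j : ℤ) - 3) ^ 2

/-- the sequence `u(n)` -/
def u (n : ℕ) : ℤ :=
  Pi1 n - ∑ m : Fin n, ((2 * n + 1).choose (2 * (m : ℕ) + 1) : ℤ) * Pi3 (n - m) * u m
termination_by n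
decreasing_by exact m.2

theorem Pi1_eq (N : ℕ) : Pi1 N = Q95.HQ.P1 N := by
  induction N with
  | zero => rfl
  | succ N ih =>
    rw [Pi1, Finset.prod_Icc_succ_top (by omega), ← Pi1, ih, Q95.HQ.P1_succ]
    push_cast; ring

theorem Pi3_eq (N : ℕ) : Pi3 N = Q95.HQ.P3 N := by
  induction N with
  | zero => rfl
  | succ N ih =>
    rw [Pi3, Finset.prod_Icc_succ_top (by omega), ← Pi3, ih, Q95.HQ.P3_succ]
    push_cast; ring

/-- the recursion of the problem file -/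
theorem u_rec (n : ℕ) : u n = Pi1 n -
    ∑ m ∈ Finset.range n, ((2 * n + 1).choose (2 * m + 1) : ℤ) * Pi3 (n - m) * u m := by
  rw [u, Fin.sum_univ_eq_sum_range
    (fun m => ((2 * n + 1).choose (2 * m + 1) : ℤ) * Pi3 (n - m) * u m) n]

theorem result : ∀ n : ℕ, Odd ((u n : ℚ) / ((2 * n + 1).factorial : ℚ)).den := by
  intro n
  apply Q95.HQ.Z2.den
  apply Q95.HQ.main
  intro n
  rw [Finset.sum_range_succ, Nat.choose_self, Nat.sub_self]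
  have h := u_rec n
  simp only [Pi1_eq, Pi3_eq] at h
  have h0 : Q95.HQ.P3 0 = 1 := rfl
  rw [h0]
  push_cast
  linear_combination h

end Pool.Agent.Results.MP_284f77_nt.TwoAdicIntegrality
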